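import Mathlib.GroupTheory.Perm.DomMulAct
import Mathlib.GroupTheory.GroupAction.Quotient
import Mathlib.Data.ZMod.Basic
import Mathlib.Data.Nat.Choose.Dvd
import Mathlib.Data.Nat.Log
import Mathlib.Tactic

set_option autoImplicit false

/-!
# Blow-ups of cycles and the parity of the number of their labelled copies
-/

namespace Pool.Agent.Q319.MC

open Finset

/-- the block of a vertex -/
def blk (k : ℕ) (v : Fin (2 ^ k - 1)) : ℕ := Nat.log 2 (v.1 + 1)

theorem blk_lt (k : ℕ) (v : Fin (2 ^ k - 1)) : blk k v < k := by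
  have := v.2
  unfold blk
  exact Nat.log_lt_of_lt_pow (by omega) (by omega)

/-- The blow-up `H_k` of the cycle of length `k`, with blocks of sizes `1, 2, 4, …, 2^(k-1)`. -/
def H (k : ℕ) (v w : Fin (2 ^ k - 1)) : Prop :=
  (blk k w : ZMod k) - blk k v = 1 ∨ (blk k v : ZMod k) - blk k w = 1

/-- pulling back a binary relation -/
def pull {A B : Type*} (f : A → B) (E : B → B → Prop) : A → A → Prop := fun a b => E (f a) (f b)

/-- a vertex in the block `i mod k` -/
def u (k : ℕ) (hk : 0 < k) (i : ℕ) : Fin (2 ^ k - 1) :=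
  ⟨2 ^ (i % k) - 1, by
    have h1 : 2 ^ (i % k) < 2 ^ k := Nat.pow_lt_pow_right (by norm_num) (Nat.mod_lt _ hk)
    have h2 : 0 < 2 ^ (i % k) := by positivity
    omega⟩

theorem blk_u (k : ℕ) (hk : 0 < k) (i : ℕ) : blk k (u k hk i) = i % k := by
  have h2 : 0 < 2 ^ (i % k) := by positivity
  unfold blk u
  simp only
  rw [Nat.sub_add_cancel h2, Nat.log_pow (by norm_num)]

theorem blk_u' (k : ℕ) (hk : 0 < k) (i : ℕ) : (blk k (u k hk i) : ZMod k) = i := by
  rw [blk_u, ZMod.natCast_mod]

/-- The antichain property. -/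
theorem antichain {k l : ℕ} (hk : 5 ≤ k) (f : Fin (2 ^ k - 1) → Fin (2 ^ l - 1))
    (hf : ∀ v w, H k v w ↔ H l (f v) (f w)) : l ∣ k := by
  have hk0 : 0 < k := by omega
  set U := u k hk0 with hU
  set b : ℕ → ZMod l := fun i => (blk l (f (U i)) : ZMod l) with hb
  have hadj : ∀ i, b (i + 1) - b i = 1 ∨ b i - b (i + 1) = 1 := by
    intro i
    have : H k (U i) (U (i + 1)) := by
      left
      rw [blk_u', blk_u']
      push_cast
      ring
    exact (hf _ _).1 this
  have hne : ∀ i, b (i + 3) ≠ b (i + 1) := by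
    intro i hi
    have h1 : H l (f (U i)) (f (U (i + 3))) := by
      rcases hadj i with h | h
      · left
        show b (i + 3) - b i = 1
        rw [hi, h]
      · right
        show b i - b (i + 3) = 1
        rw [hi, h]
    rcases (hf _ _).2 h1 with h | h
    · rw [blk_u', blk_u'] at h
      have h2 : ((2 : ℕ) : ZMod k) = 0 := by
        push_cast at h ⊢
        linear_combination h
      rw [ZMod.natCast_eq_zero_iff] at h2
      have := Nat.le_of_dvd (by norm_num) h2
      omega
    · rw [blk_u', blk_u'] at h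
      have h2 : ((4 : ℕ) : ZMod k) = 0 := by
        push_cast at h ⊢
        linear_combination -h
      rw [ZMod.natCast_eq_zero_iff] at h2
      have := Nat.le_of_dvd (by norm_num) h2
      omega
  have hstep : ∀ i, b (i + 3) - b (i + 2) = b (i + 2) - b (i + 1) := by
    intro i
    rcases hadj (i + 1) with h | h <;> rcases hadj (i + 2) with h' | h'
    · linear_combination h' - h
    · exact absurd (by linear_combination h - h') (hne i)
    · exact absurd (by linear_combination h' - h) (hne i)
    · linear_combination h - h'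
  have hconst : ∀ i, b (i + 2) - b (i + 1) = b 2 - b 1 := by
    intro i
    induction i with
    | zero => rfl
    | succ i ih => rw [← ih, ← hstep i]
  have hlin : ∀ i : ℕ, b (i + 1) = b 1 + i * (b 2 - b 1) := by
    intro i
    induction i with
    | zero => simp
    | succ i ih =>
      have := hconst i
      push_cast
      linear_combination this + ih
  have hper : b (k + 1) = b 1 := by
    have : U (k + 1) = U 1 := by
      apply Fin.ext
      simp [hU, u, Nat.add_mod_left]
    simp only [hb, this]
  have hz : (k : ZMod l) * (b 2 - b 1) = 0 := by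
    have := hlin k
    rw [hper] at this
    linear_combination -this
  have hk' : (k : ZMod l) = 0 := by
    rcases hadj 1 with h | h
    · have h' : b 2 - b 1 = 1 := h
      rw [h'] at hz
      linear_combination hz
    · have h' : b 1 - b 2 = 1 := h
      have : b 2 - b 1 = -1 := by linear_combination -h'
      rw [this] at hz
      linear_combination -hz
  rwa [ZMod.natCast_eq_zero_iff] at hk'

/-! ### parity -/

theorem odd_choose (j : ℕ) : ∀ i, i < 2 ^ j → Odd ((2 ^ j - 1).choose i) := by
  intro i
  induction i with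
  | zero => intro _; simp
  | succ i ih =>
    intro hi
    have h1 := ih (by omega)
    have h2 : 2 ∣ (2 ^ j).choose (i + 1) := by
      apply Nat.Prime.dvd_choose_pow Nat.prime_two (by omega) (by omega)
    have h3 : (2 ^ j).choose (i + 1) = (2 ^ j - 1).choose i + (2 ^ j - 1).choose (i + 1) := by
      conv_lhs => rw [show 2 ^ j = (2 ^ j - 1) + 1 by omega]
      exact Nat.choose_succ_succ _ _
    rw [h3] at h2
    rw [Nat.odd_iff] at h1 ⊢
    omega

theorem fact_eq (k : ℕ) : ∃ M, Odd M ∧ (2 ^ k - 1).factorial =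
    (∏ i ∈ range k, (2 ^ i).factorial) * M := by
  induction k with
  | zero => exact ⟨1, by decide, by simp⟩
  | succ k ih =>
    obtain ⟨M, hM, h⟩ := ih
    have hpos : 0 < 2 ^ k := by positivity
    have hp : 2 ^ (k + 1) = 2 * 2 ^ k := by ring
    refine ⟨M * (2 ^ (k + 1) - 1).choose (2 ^ k), hM.mul (odd_choose _ _ (by omega)), ?_⟩
    have h1 := Nat.choose_mul_factorial_mul_factorial (n := 2 ^ (k + 1) - 1) (k := 2 ^ k) (by omega)
    rw [show 2 ^ (k + 1) - 1 - 2 ^ k = 2 ^ k - 1 by omega, h] at h1
    rw [← h1, prod_range_succ]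
    ring

theorem card_block (k i : ℕ) (hi : i < k) :
    Fintype.card {v : Fin (2 ^ k - 1) // (⟨blk k v, blk_lt k v⟩ : Fin k) = ⟨i, hi⟩} = 2 ^ i := by
  rw [Fintype.card_subtype]
  have hpos : 0 < 2 ^ i := by positivity
  have hle : 2 ^ (i + 1) ≤ 2 ^ k := Nat.pow_le_pow_right (by norm_num) hi
  have hp : 2 ^ (i + 1) = 2 * 2 ^ i := by ring
  have : (univ.filter fun v : Fin (2 ^ k - 1) => (⟨blk k v, blk_lt k v⟩ : Fin k) = ⟨i, hi⟩).map
      Fin.valEmbedding = Finset.Ico (2 ^ i - 1) (2 ^ (i + 1) - 1) := by
    ext x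
    simp only [mem_map, mem_filter, mem_univ, true_and, Fin.mk.injEq, Fin.valEmbedding_apply,
      mem_Ico]
    constructor
    · rintro ⟨v, hv, rfl⟩
      unfold blk at hv
      rw [Nat.log_eq_iff (Or.inr ⟨by norm_num, by omega⟩)] at hv
      omega
    · rintro ⟨h1, h2⟩
      refine ⟨⟨x, by omega⟩, ?_, rfl⟩
      unfold blk
      rw [Nat.log_eq_iff (Or.inr ⟨by norm_num, by omega⟩)]
      constructor <;> simp only <;> omega
  rw [← card_map, this, Nat.card_Ico]
  omega

/-- The action of the permutations on the binary relations. -/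
@[instance_reducible]
def act (n : ℕ) : MulAction (Equiv.Perm (Fin n)) (Fin n → Fin n → Prop) where
  smul σ E := pull σ.symm E
  one_smul _ := rfl
  mul_smul _ _ _ := rfl

/-- The number of the labelled copies of `H_k` is odd. -/
theorem odd_copies (k : ℕ) :
    Odd (Nat.card {E : Fin (2 ^ k - 1) → Fin (2 ^ k - 1) → Prop //
      ∃ σ : Equiv.Perm (Fin (2 ^ k - 1)), E = pull σ (H k)}) := by
  classical
  let _ := act (2 ^ k - 1)
  set G := Equiv.Perm (Fin (2 ^ k - 1))
  have horb : {E : Fin (2 ^ k - 1) → Fin (2 ^ k - 1) → Prop | ∃ σ : G, E = pull σ (H k)} =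
      MulAction.orbit G (H k) := by
    ext E
    constructor
    · rintro ⟨σ, rfl⟩
      exact ⟨σ⁻¹, rfl⟩
    · rintro ⟨σ, rfl⟩
      exact ⟨σ⁻¹, rfl⟩
  have h1 := MulAction.card_orbit_mul_card_stabilizer_eq_card_group G (H k)
  have h1' : Nat.card (MulAction.orbit G (H k)) * Nat.card (MulAction.stabilizer G (H k)) =
      (2 ^ k - 1).factorial := by
    rw [Nat.card_eq_fintype_card, Nat.card_eq_fintype_card, h1, Fintype.card_perm,
      Fintype.card_fin]
  -- the block preserving permutations
  let β : Fin (2 ^ k - 1) → Fin k := fun v => ⟨blk k v, blk_lt k v⟩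
  let K : Subgroup G :=
    { carrier := {σ | β ∘ σ = β}
      one_mem' := rfl
      mul_mem' := by
        intro a b ha hb
        have ha' : β ∘ a = β := ha
        have hb' : β ∘ b = β := hb
        show β ∘ (a ∘ b) = β
        rw [← Function.comp_assoc, ha', hb']
      inv_mem' := by
        intro a ha
        have ha' : β ∘ a = β := ha
        show β ∘ (a⁻¹ : G) = β
        funext x
        have h := congrFun ha' (a.symm x)
        rw [Function.comp_apply, Equiv.apply_symm_apply] at h
        exact h.symm }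
  have hK : Nat.card K = ∏ i ∈ range k, (2 ^ i).factorial := by
    have h2 := DomMulAct.stabilizer_card β
    rw [Nat.card_eq_fintype_card, Finset.prod_range]
    have h3 : Fintype.card K = Fintype.card {g : G // β ∘ g = β} := Fintype.card_congr (Equiv.refl _)
    rw [h3, h2]
    refine prod_congr rfl fun i _ => ?_
    rw [card_block k i.1 i.2]
  have hKle : K ≤ MulAction.stabilizer G (H k) := by
    intro σ hσ
    have hσ' : β ∘ σ = β := hσ
    have hs : ∀ v, blk k ((σ⁻¹ : G) v) = blk k v := by
      intro v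
      have := congrFun hσ' (σ.symm v)
      rw [Function.comp_apply, Equiv.apply_symm_apply] at this
      exact (congrArg Fin.val this).symm
    show pull (σ⁻¹ : G) (H k) = H k
    funext v w
    unfold pull H
    rw [hs, hs]
  obtain ⟨s, hs⟩ := Subgroup.card_dvd_of_le hKle
  obtain ⟨M, hM, hfact⟩ := fact_eq k
  rw [hs, hfact, hK] at h1'
  have hpos : 0 < ∏ i ∈ range k, (2 ^ i).factorial :=
    prod_pos fun i _ => Nat.factorial_pos _
  have h4 : Nat.card (MulAction.orbit G (H k)) * s = M := by
    apply Nat.eq_of_mul_eq_mul_left hpos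
    rw [← h1']
    ring
  have h5 : Odd (Nat.card (MulAction.orbit G (H k))) := by
    rw [← h4] at hM
    exact (Nat.odd_mul.1 hM).1
  have h6 : Nat.card {E : Fin (2 ^ k - 1) → Fin (2 ^ k - 1) → Prop // ∃ σ : G, E = pull σ (H k)} =
      Nat.card (MulAction.orbit G (H k)) := by
    rw [← horb]
    rfl
  rw [h6]
  exact h5

end Pool.Agent.Q319.MC
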