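import Pool.Agent.Q319.MC.Core
import Mathlib.Combinatorics.SimpleGraph.Maps

set_option autoImplicit false

/-!
# Hereditary classes whose counting functions are not MC-finite
-/

namespace Pool.Agent.Q319.MC

open Finset

/-- A finite relational vocabulary. -/
structure Voc where
  Sym : Type
  fin : Finite Sym
  ar : Sym → ℕ

/-- The structures with universe `A`. -/
abbrev Str (τ : Voc) (A : Type) := ∀ R : τ.Sym, (Fin (τ.ar R) → A) → Prop

/-- The structure on `A` induced along a map `f : A → B`. -/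
def Str.pull {τ : Voc} {A B : Type} (f : A → B) (S : Str τ B) : Str τ A :=
  fun R v => S R (f ∘ v)

/-- A class of finite structures closed under isomorphisms and under (induced) substructures. -/
structure HerClass (τ : Voc) where
  mem : ∀ A : Type, Str τ A → Prop
  iso : ∀ {A B : Type} [Finite A] [Finite B] (e : A ≃ B) (S : Str τ B), mem B S → mem A (S.pull e)
  sub : ∀ {A : Type} [Finite A] (S : Str τ A) (B : Set A), mem A S →
    mem B (S.pull (Subtype.val : B → A))

/-- The Specker function: the number of the structures of the class with universe `Fin n`. -/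
noncomputable def HerClass.Sp {τ : Voc} (C : HerClass τ) (n : ℕ) : ℕ :=
  Nat.card {S : Str τ (Fin n) // C.mem (Fin n) S}

/-- MC-finite sequences. -/
def MCFinite (s : ℕ → ℕ) : Prop :=
  ∀ m : ℕ, 1 ≤ m → ∃ r p : ℕ, 1 ≤ r ∧ 1 ≤ p ∧ ∃ α : ℕ → ℤ, ∀ n, r ≤ n →
    (s (n + p) : ℤ) ≡ ∑ i ∈ range p, α i * (s (n + i) : ℤ) [ZMOD m]

/-- Ultimate periodicity modulo `m`. -/
def UP (m : ℕ) (s : ℕ → ℕ) : Prop :=
  ∃ N p : ℕ, 0 < p ∧ ∀ n, N ≤ n → s (n + p) ≡ s n [MOD m]

theorem up_of_mc {s : ℕ → ℕ} (hs : MCFinite s) (m : ℕ) (hm : 1 ≤ m) : UP m s := by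
  obtain ⟨r, p, hr, hp, α, h⟩ := hs m hm
  have : NeZero m := ⟨by omega⟩
  have h' : ∀ n, r ≤ n → (s (n + p) : ZMod m) =
      ∑ i ∈ range p, (α i : ZMod m) * (s (n + i) : ZMod m) := by
    intro n hn
    have := (ZMod.intCast_eq_intCast_iff _ _ m).2 (h n hn)
    push_cast at this
    exact this
  obtain ⟨a, b, hab, heq⟩ := Finite.exists_ne_map_eq_of_infinite
    (fun n : ℕ => fun i : Fin p => (s (r + n + i) : ZMod m))
  wlog hlt : a < b generalizing a b
  · exact this b a hab.symm heq.symm (by omega)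
  have key : ∀ t, (s (r + a + t) : ZMod m) = s (r + b + t) := by
    intro t
    induction t using Nat.strong_induction_on with
    | _ t ih =>
      by_cases ht : t < p
      · exact congrFun heq ⟨t, ht⟩
      · obtain ⟨t', rfl⟩ := Nat.exists_eq_add_of_le' (not_lt.1 ht)
        rw [← add_assoc, ← add_assoc, h' _ (by omega), h' _ (by omega)]
        refine sum_congr rfl fun i hi => ?_
        rw [mem_range] at hi
        rw [show r + a + t' + i = r + a + (t' + i) by ring,
          show r + b + t' + i = r + b + (t' + i) by ring, ih (t' + i) (by omega)]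
  refine ⟨r + a, b - a, by omega, fun n hn => ?_⟩
  rw [← ZMod.natCast_eq_natCast_iff]
  obtain ⟨t, rfl⟩ := Nat.exists_eq_add_of_le hn
  rw [key t]
  congr 2
  omega

/-- induced sub-relations of the blow-ups of the cycles -/
def memF (A : Type) (E : A → A → Prop) : Prop :=
  ∃ k, 5 ≤ k ∧ ∃ f : A → Fin (2 ^ k - 1), Function.Injective f ∧ E = pull f (H k)

/-- proper induced sub-relations of the blow-ups of the cycles -/
def memD (A : Type) (E : A → A → Prop) : Prop :=
  ∃ k, 5 ≤ k ∧ ∃ f : A → Fin (2 ^ k - 1), Function.Injective f ∧ ¬ Function.Surjective f ∧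
    E = pull f (H k)

theorem memF_pull {A B : Type} (g : B → A) (hg : Function.Injective g) (E : A → A → Prop)
    (h : memF A E) : memF B (pull g E) := by
  obtain ⟨k, hk, f, hf, rfl⟩ := h
  exact ⟨k, hk, f ∘ g, hf.comp hg, rfl⟩

theorem memD_pull {A B : Type} (g : B → A) (hg : Function.Injective g) (E : A → A → Prop)
    (h : memD A E) : memD B (pull g E) := by
  obtain ⟨k, hk, f, hf, hs, rfl⟩ := h
  exact ⟨k, hk, f ∘ g, hf.comp hg, fun hs' => hs hs'.of_comp, rfl⟩

theorem memF_of_memD {A : Type} (E : A → A → Prop) (h : memD A E) : memF A E := by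
  obtain ⟨k, hk, f, hf, _, rfl⟩ := h
  exact ⟨k, hk, f, hf, rfl⟩

theorem two_pow_inj {k j : ℕ} (h : 2 ^ k - 1 = 2 ^ j - 1) : k = j := by
  have h1 : 0 < 2 ^ k := by positivity
  have h2 : 0 < 2 ^ j := by positivity
  exact Nat.pow_right_injective (le_refl 2) (show 2 ^ k = 2 ^ j by omega)

theorem diff_none (n : ℕ) (hn : ∀ k, 5 ≤ k → n ≠ 2 ^ k - 1) (E : Fin n → Fin n → Prop) :
    ¬ (memF (Fin n) E ∧ ¬ memD (Fin n) E) := by
  rintro ⟨⟨k, hk, f, hf, rfl⟩, hD⟩
  have hs : Function.Surjective f := by
    by_contra hs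
    exact hD ⟨k, hk, f, hf, hs, rfl⟩
  have := Fintype.card_of_bijective ⟨hf, hs⟩
  rw [Fintype.card_fin, Fintype.card_fin] at this
  exact hn k hk this

theorem diff_iff (k : ℕ) (hk : 5 ≤ k) (E : Fin (2 ^ k - 1) → Fin (2 ^ k - 1) → Prop) :
    (memF _ E ∧ ¬ memD _ E) ↔ ∃ σ : Equiv.Perm (Fin (2 ^ k - 1)), E = pull σ (H k) := by
  constructor
  · rintro ⟨⟨j, hj, f, hf, rfl⟩, hD⟩
    have hs : Function.Surjective f := by
      by_contra hs
      exact hD ⟨j, hj, f, hf, hs, rfl⟩
    have := Fintype.card_of_bijective ⟨hf, hs⟩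
    rw [Fintype.card_fin, Fintype.card_fin] at this
    obtain rfl := two_pow_inj this
    exact ⟨Equiv.ofBijective f ⟨hf, hs⟩, rfl⟩
  · rintro ⟨σ, rfl⟩
    refine ⟨⟨k, hk, σ, σ.injective, rfl⟩, ?_⟩
    rintro ⟨j, hj, g, hg, hs, he⟩
    have hle := Fintype.card_le_of_injective _ hg
    rw [Fintype.card_fin, Fintype.card_fin] at hle
    have hne : k ≠ j := by
      rintro rfl
      exact hs (Finite.surjective_of_injective hg)
    have hkj : k ≤ j := by
      by_contra hlt
      have h1 : 2 ^ j < 2 ^ k := Nat.pow_lt_pow_right (by norm_num) (by omega)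
      have h2 : 0 < 2 ^ j := by positivity
      omega
    have hdvd : j ∣ k := by
      refine antichain hk (fun v => g (σ.symm v)) fun v w => ?_
      have h3 := congrFun (congrFun he (σ.symm v)) (σ.symm w)
      simp only [pull, Equiv.apply_symm_apply] at h3
      exact iff_of_eq h3
    have := Nat.le_of_dvd (by omega) hdvd
    omega

noncomputable def cF (n : ℕ) : ℕ := Nat.card {E : Fin n → Fin n → Prop // memF (Fin n) E}
noncomputable def cD (n : ℕ) : ℕ := Nat.card {E : Fin n → Fin n → Prop // memD (Fin n) E}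
noncomputable def cX (n : ℕ) : ℕ :=
  Nat.card {E : Fin n → Fin n → Prop // memF (Fin n) E ∧ ¬ memD (Fin n) E}

theorem cF_eq (n : ℕ) : cF n = cD n + cX n := by
  classical
  unfold cF cD cX
  rw [Nat.card_eq_fintype_card, Nat.card_eq_fintype_card, Nat.card_eq_fintype_card,
    Fintype.card_subtype, Fintype.card_subtype, Fintype.card_subtype,
    ← card_filter_add_card_filter_not (s := univ.filter fun E : Fin n → Fin n → Prop =>
      memF (Fin n) E) (fun E => memD (Fin n) E), filter_filter, filter_filter]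
  congr 2
  ext E
  simp only [mem_filter, mem_univ, true_and]
  exact ⟨fun h => h.2, fun h => ⟨memF_of_memD E h, h⟩⟩

theorem cX_odd (k : ℕ) (hk : 5 ≤ k) : Odd (cX (2 ^ k - 1)) := by
  unfold cX
  have : (fun E : Fin (2 ^ k - 1) → Fin (2 ^ k - 1) → Prop => memF _ E ∧ ¬ memD _ E) =
      fun E => ∃ σ : Equiv.Perm (Fin (2 ^ k - 1)), E = pull σ (H k) := by
    funext E
    exact propext (diff_iff k hk E)
  have h2 : Nat.card {E : Fin (2 ^ k - 1) → Fin (2 ^ k - 1) → Prop // memF _ E ∧ ¬ memD _ E} =
      Nat.card {E : Fin (2 ^ k - 1) → Fin (2 ^ k - 1) → Prop //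
        ∃ σ : Equiv.Perm (Fin (2 ^ k - 1)), E = pull σ (H k)} := by
    rw [this]
  rw [h2]
  exact odd_copies k

theorem cX_zero (n : ℕ) (hn : ∀ k, 5 ≤ k → n ≠ 2 ^ k - 1) : cX n = 0 := by
  unfold cX
  have : IsEmpty {E : Fin n → Fin n → Prop // memF (Fin n) E ∧ ¬ memD (Fin n) E} :=
    ⟨fun E => diff_none n hn E.1 E.2⟩
  exact Nat.card_of_isEmpty

/-- One of the two counting functions is not ultimately periodic modulo `2`. -/
theorem not_both : ¬ (UP 2 cF ∧ UP 2 cD) := by
  rintro ⟨⟨N, p, hp, h⟩, ⟨N', p', hp', h'⟩⟩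
  -- a common period
  have iter : ∀ (s : ℕ → ℕ) (N p : ℕ), (∀ n, N ≤ n → s (n + p) ≡ s n [MOD 2]) →
      ∀ q n, N ≤ n → s (n + q * p) ≡ s n [MOD 2] := by
    intro s N p h q
    induction q with
    | zero => intro n _; simp; rfl
    | succ q ih =>
      intro n hn
      have h1 := h (n + q * p) (by omega)
      rw [show n + (q + 1) * p = n + q * p + p by ring]
      exact h1.trans (ih n hn)
  set P := p * p' with hP
  have hPpos : 0 < P := Nat.mul_pos hp hp'
  have hF : ∀ n, N + N' ≤ n → cF (n + P) ≡ cF n [MOD 2] := by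
    intro n hn
    rw [hP, mul_comm]
    exact iter cF N p h p' n (by omega)
  have hD : ∀ n, N + N' ≤ n → cD (n + P) ≡ cD n [MOD 2] := by
    intro n hn
    exact iter cD N' p' h' p n (by omega)
  have hX : ∀ n, N + N' ≤ n → cX (n + P) ≡ cX n [MOD 2] := by
    intro n hn
    have h1 := hF n hn
    have h2 := hD n hn
    rw [cF_eq, cF_eq] at h1
    exact Nat.ModEq.add_left_cancel h2 h1
  set k := N + N' + P + 5 with hk
  have hlt : k < 2 ^ k := Nat.lt_two_pow_self
  have h1 := hX (2 ^ k - 1) (by omega)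
  have h2 := cX_odd k (by omega)
  have h3 : cX (2 ^ k - 1 + P) = 0 := by
    apply cX_zero
    intro j hj he
    have h4 : 0 < 2 ^ j := by positivity
    have h5 : 2 ^ k + P = 2 ^ j := by omega
    have h6 : k < j := by
      by_contra hle
      have := Nat.pow_le_pow_right (show 0 < 2 by norm_num) (not_lt.1 hle)
      omega
    have h7 := Nat.pow_le_pow_right (show 0 < 2 by norm_num) (show k + 1 ≤ j from h6)
    rw [pow_succ] at h7
    omega
  rw [h3] at h1
  rw [Nat.odd_iff] at h2
  unfold Nat.ModEq at h1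
  omega

/-! ### Coding in an arbitrary vocabulary -/

variable {τ : Voc}

/-- The structure coding a binary relation. -/
def enc (R0 : τ.Sym) {A : Type} (E : A → A → Prop) : Str τ A := fun R v =>
  R = R0 ∧ ∃ x y : A, E x y ∧ ∀ i : Fin (τ.ar R), v i = if i.1 = 0 then x else y

theorem enc_inj (R0 : τ.Sym) (h2 : 2 ≤ τ.ar R0) {A : Type} :
    Function.Injective (enc R0 (A := A)) := by
  have key : ∀ (E : A → A → Prop) x y,
      E x y ↔ enc R0 E R0 (fun i => if i.1 = 0 then x else y) := by
    intro E x y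
    constructor
    · intro h
      exact ⟨rfl, x, y, h, fun i => rfl⟩
    · rintro ⟨-, x', y', h, h'⟩
      have e0 := h' ⟨0, by omega⟩
      have e1 := h' ⟨1, by omega⟩
      simp only [if_true, one_ne_zero, if_false] at e0 e1
      rw [e0, e1]
      exact h
  intro E E' h
  funext x y
  exact propext ((key E x y).trans ((iff_of_eq (by rw [h])).trans (key E' x y).symm))

theorem enc_pull (R0 : τ.Sym) (h2 : 2 ≤ τ.ar R0) {A B : Type} (f : A → B)
    (hf : Function.Injective f) (E : B → B → Prop) :
    enc R0 (pull f E) = (enc R0 E).pull f := by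
  funext R v
  apply propext
  constructor
  · rintro ⟨hR, x, y, h, hv⟩
    refine ⟨hR, f x, f y, h, fun i => ?_⟩
    rw [Function.comp_apply, hv i]
    split_ifs <;> rfl
  · rintro ⟨rfl, x, y, h, hv⟩
    have e0 := hv ⟨0, by omega⟩
    have e1 := hv ⟨1, by omega⟩
    simp only [Function.comp_apply, if_true, one_ne_zero, if_false] at e0 e1
    refine ⟨rfl, v ⟨0, by omega⟩, v ⟨1, by omega⟩, ?_, fun i => ?_⟩
    · show E _ _
      rw [e0, e1]
      exact h
    · apply hf
      have := hv i
      rw [Function.comp_apply] at this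
      rw [this]
      split_ifs
      · exact e0.symm
      · exact e1.symm

/-- The class of the codes of the members of a hereditary class of binary relations. -/
def codeClass (R0 : τ.Sym) (h2 : 2 ≤ τ.ar R0) (P : ∀ A : Type, (A → A → Prop) → Prop)
    (hP : ∀ {A B : Type} (g : B → A), Function.Injective g → ∀ E : A → A → Prop,
      P A E → P B (pull g E)) : HerClass τ where
  mem A S := ∃ E, P A E ∧ S = enc R0 E
  iso := by
    rintro A B _ _ e S ⟨E, hE, rfl⟩
    exact ⟨pull e E, hP e e.injective E hE, (enc_pull R0 h2 e e.injective E).symm⟩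
  sub := by
    rintro A _ S B ⟨E, hE, rfl⟩
    exact ⟨pull Subtype.val E, hP _ Subtype.val_injective E hE,
      (enc_pull R0 h2 _ Subtype.val_injective E).symm⟩

theorem codeClass_Sp (R0 : τ.Sym) (h2 : 2 ≤ τ.ar R0) (P : ∀ A : Type, (A → A → Prop) → Prop)
    (hP : ∀ {A B : Type} (g : B → A), Function.Injective g → ∀ E : A → A → Prop,
      P A E → P B (pull g E)) (n : ℕ) :
    (codeClass R0 h2 P hP).Sp n = Nat.card {E : Fin n → Fin n → Prop // P (Fin n) E} := by
  unfold HerClass.Sp
  symm
  refine Nat.card_congr (Equiv.ofBijective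
    (fun E => ⟨enc R0 E.1, E.1, E.2, rfl⟩) ⟨?_, ?_⟩)
  · intro E E' h
    exact Subtype.ext (enc_inj R0 h2 (congrArg Subtype.val h))
  · rintro ⟨S, E, hE, rfl⟩
    exact ⟨⟨E, hE⟩, rfl⟩

/-- For every finite relational vocabulary with a symbol of arity at least two there is a
substructure-closed class whose Specker function is not ultimately periodic modulo `2`. -/
theorem exists_class (R0 : τ.Sym) (h2 : 2 ≤ τ.ar R0) : ∃ C : HerClass τ, ¬ UP 2 C.Sp := by
  by_contra hcon
  push Not at hcon
  apply not_both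
  constructor
  · have := hcon (codeClass R0 h2 memF fun {A B} g hg E h => memF_pull g hg E h)
    rwa [show (codeClass R0 h2 memF fun {A B} g hg E h => memF_pull g hg E h).Sp = cF from
      funext fun n => codeClass_Sp _ _ _ _ n] at this
  · have := hcon (codeClass R0 h2 memD fun {A B} g hg E h => memD_pull g hg E h)
    rwa [show (codeClass R0 h2 memD fun {A B} g hg E h => memD_pull g hg E h).Sp = cD from
      funext fun n => codeClass_Sp _ _ _ _ n] at this

/-! ### Graphs -/

theorem H_symm {k : ℕ} {v w : Fin (2 ^ k - 1)} (h : H k v w) : H k w v := h.symm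

theorem H_irrefl {k : ℕ} (hk : 5 ≤ k) (v : Fin (2 ^ k - 1)) : ¬ H k v v := by
  have : Fact (1 < k) := ⟨by omega⟩
  intro h
  rcases h with h | h <;> exact zero_ne_one (by rw [sub_self] at h; exact h)

theorem memF_graph {A : Type} {E : A → A → Prop} (h : memF A E) :
    (∀ v w, E v w → E w v) ∧ ∀ v, ¬ E v v := by
  obtain ⟨k, hk, f, _, rfl⟩ := h
  exact ⟨fun v w h => H_symm h, fun v h => H_irrefl hk _ h⟩

/-- A class of finite simple graphs closed under isomorphisms and induced subgraphs. -/
structure HerGraphClass where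
  mem : ∀ A : Type, SimpleGraph A → Prop
  her : ∀ {A B : Type} [Finite A] [Finite B] (G : SimpleGraph A) (G' : SimpleGraph B),
    Nonempty (G ↪g G') → mem B G' → mem A G

/-- The number of the graphs of the class with vertex set `Fin n`. -/
noncomputable def HerGraphClass.Sp (C : HerGraphClass) (n : ℕ) : ℕ :=
  Nat.card {G : SimpleGraph (Fin n) // C.mem (Fin n) G}

/-- the graph class of a class of relations -/
def graphClass (P : ∀ A : Type, (A → A → Prop) → Prop)
    (hP : ∀ {A B : Type} (g : B → A), Function.Injective g → ∀ E : A → A → Prop,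
      P A E → P B (pull g E)) : HerGraphClass where
  mem A G := P A G.Adj
  her := by
    rintro A B _ _ G G' ⟨f⟩ h
    have : G.Adj = pull f G'.Adj := by
      funext a b
      exact propext f.map_rel_iff.symm
    rw [this]
    exact hP f f.injective _ h

theorem graphClass_Sp (P : ∀ A : Type, (A → A → Prop) → Prop)
    (hP : ∀ {A B : Type} (g : B → A), Function.Injective g → ∀ E : A → A → Prop,
      P A E → P B (pull g E))
    (hg : ∀ A E, P A E → (∀ v w, E v w → E w v) ∧ ∀ v, ¬ E v v) (n : ℕ) :
    (graphClass P hP).Sp n = Nat.card {E : Fin n → Fin n → Prop // P (Fin n) E} := by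
  unfold HerGraphClass.Sp
  refine Nat.card_congr
    { toFun := fun G => ⟨G.1.Adj, G.2⟩
      invFun := fun E => ⟨⟨E.1, ⟨fun v w h => (hg _ _ E.2).1 v w h⟩, ⟨fun v => (hg _ _ E.2).2 v⟩⟩, E.2⟩
      left_inv := fun G => rfl
      right_inv := fun E => rfl }

theorem exists_graph_class : ∃ C : HerGraphClass, ¬ UP 2 C.Sp := by
  by_contra hcon
  push Not at hcon
  apply not_both
  constructor
  · have := hcon (graphClass memF fun {A B} g hg E h => memF_pull g hg E h)
    rwa [show (graphClass memF fun {A B} g hg E h => memF_pull g hg E h).Sp = cF from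
      funext fun n => graphClass_Sp _ _ (fun A E h => memF_graph h) n] at this
  · have := hcon (graphClass memD fun {A B} g hg E h => memD_pull g hg E h)
    rwa [show (graphClass memD fun {A B} g hg E h => memD_pull g hg E h).Sp = cD from
      funext fun n => graphClass_Sp _ _ (fun A E h => memF_graph (memF_of_memD E h)) n] at this

end Pool.Agent.Q319.MC
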